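import Pool.Agent.H466.HP.Stm2

/-!
# Integration over the windows (task HP-INT)
-/

set_option autoImplicit false

namespace Pool.Agent.H894.HP

open MeasureTheory Set Filter Topology
open Pool.Agent.H466.HP

theorem bad_int (Bad : Set ℝ) (T1 T2 β : ℝ) (hβ : 0 ≤ β) (hB : volume Bad ≤ ENNReal.ofReal β) :
    (∫ t in Icc T1 T2, (toMeasurable volume Bad).indicator (1 : ℝ → ℝ) t) ≤ β := by
  rw [integral_indicator_one (measurableSet_toMeasurable _ _)]
  have h1 : (volume.restrict (Icc T1 T2)) (toMeasurable volume Bad) ≤ ENNReal.ofReal β :=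
    (Measure.restrict_apply_le _ _).trans ((measure_toMeasurable Bad).le.trans hB)
  exact ENNReal.toReal_le_of_le_ofReal hβ h1

theorem ind_int (Bad : Set ℝ) (T1 T2 : ℝ) :
    IntegrableOn (fun t => (toMeasurable volume Bad).indicator (1 : ℝ → ℝ) t) (Icc T1 T2) := by
  have h1 : IntegrableOn (1 : ℝ → ℝ) (Icc T1 T2) := by
    have : IntegrableOn (fun _ : ℝ => (1 : ℝ)) (Icc T1 T2) := integrableOn_const (by simp)
    exact this
  exact h1.indicator (measurableSet_toMeasurable _ _)

theorem const_int (T1 T2 U : ℝ) (hT : T1 ≤ T2) : ∫ _t in Icc T1 T2, U = U * (T2 - T1) := by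
  rw [setIntegral_const, Real.volume_real_Icc_of_le hT, smul_eq_mul, mul_comm]

theorem up_bound (f : ℝ → ℝ) (Bad : Set ℝ) (T1 T2 U V β : ℝ) (hT : T1 ≤ T2) (hU : 0 ≤ U)
    (hV : 0 ≤ V) (hβ : 0 ≤ β) (hf : IntegrableOn f (Icc T1 T2)) (hB : volume Bad ≤ ENNReal.ofReal β)
    (h1 : ∀ t ∈ Icc T1 T2, t ∉ Bad → f t ≤ U) (h2 : ∀ t ∈ Icc T1 T2, f t ≤ V) :
    ∫ t in Icc T1 T2, f t ≤ U * (T2 - T1) + V * β := by
  have hi := ind_int Bad T1 T2
  have hc : IntegrableOn (fun _ : ℝ => U) (Icc T1 T2) := integrableOn_const (by simp)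
  have hg : IntegrableOn (fun t => U + V * (toMeasurable volume Bad).indicator (1 : ℝ → ℝ) t)
      (Icc T1 T2) := hc.add (hi.const_mul V)
  have h3 : ∫ t in Icc T1 T2, f t ≤
      ∫ t in Icc T1 T2, (U + V * (toMeasurable volume Bad).indicator (1 : ℝ → ℝ) t) := by
    refine setIntegral_mono_on hf hg measurableSet_Icc fun t ht => ?_
    by_cases hb : t ∈ toMeasurable volume Bad
    · rw [indicator_of_mem hb, Pi.one_apply, mul_one]
      have := h2 t ht
      linarith
    · rw [indicator_of_notMem hb, mul_zero, add_zero]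
      exact h1 t ht fun h => hb (subset_toMeasurable _ _ h)
  refine h3.trans ?_
  rw [integral_add hc (hi.const_mul V), integral_const_mul, const_int _ _ _ hT]
  exact add_le_add le_rfl (mul_le_mul_of_nonneg_left (bad_int Bad T1 T2 β hβ hB) hV)

theorem low_bound (f : ℝ → ℝ) (Bad : Set ℝ) (T1 T2 n β : ℝ) (hT : T1 ≤ T2) (hn : 0 ≤ n)
    (hβ : 0 ≤ β) (hf : IntegrableOn f (Icc T1 T2)) (hB : volume Bad ≤ ENNReal.ofReal β)
    (h1 : ∀ t ∈ Icc T1 T2, t ∉ Bad → n ≤ f t) (h2 : ∀ t, 0 ≤ f t) :
    n * (T2 - T1 - β) ≤ ∫ t in Icc T1 T2, f t := by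
  have hi := ind_int Bad T1 T2
  have hc : IntegrableOn (fun _ : ℝ => n) (Icc T1 T2) := integrableOn_const (by simp)
  have hg : IntegrableOn (fun t => n - n * (toMeasurable volume Bad).indicator (1 : ℝ → ℝ) t)
      (Icc T1 T2) := hc.sub (hi.const_mul n)
  have h3 : ∫ t in Icc T1 T2, (n - n * (toMeasurable volume Bad).indicator (1 : ℝ → ℝ) t) ≤
      ∫ t in Icc T1 T2, f t := by
    refine setIntegral_mono_on hg hf measurableSet_Icc fun t ht => ?_
    by_cases hb : t ∈ toMeasurable volume Bad
    · rw [indicator_of_mem hb, Pi.one_apply, mul_one, sub_self]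
      exact h2 t
    · rw [indicator_of_notMem hb, mul_zero, sub_zero]
      exact h1 t ht fun h => hb (subset_toMeasurable _ _ h)
  refine le_trans ?_ h3
  rw [integral_sub hc (hi.const_mul n), integral_const_mul, const_int _ _ _ hT]
  have := mul_le_mul_of_nonneg_left (bad_int Bad T1 T2 β hβ hB) hn
  linarith

theorem intlow : S_INTLOW := by
  intro Z Bad T1 T2 a h n β hT hh hn hβ hB hbd
  have hcard : ∀ t : ℝ, ((Z.filter fun y : ℝ => t + a < y ∧ y < t + a + h).card : ℝ)
      = ∑ y ∈ Z, (Ioo (y - a - h) (y - a)).indicator (1 : ℝ → ℝ) t := by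
    intro t
    rw [Finset.card_filter, Nat.cast_sum]
    refine Finset.sum_congr rfl fun y _ => ?_
    by_cases hy : t + a < y ∧ y < t + a + h
    · rw [if_pos hy, indicator_of_mem (by constructor <;> linarith [hy.1, hy.2])]
      simp
    · rw [if_neg hy, indicator_of_notMem (fun hm => hy ⟨by linarith [hm.2], by linarith [hm.1]⟩)]
      simp
  have hio : ∀ y : ℝ, IntegrableOn (fun t => (Ioo (y - a - h) (y - a)).indicator (1 : ℝ → ℝ) t)
      (Icc T1 T2) := by
    intro y
    have h1 : IntegrableOn (1 : ℝ → ℝ) (Icc T1 T2) := by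
      have : IntegrableOn (fun _ : ℝ => (1 : ℝ)) (Icc T1 T2) := integrableOn_const (by simp)
      exact this
    exact h1.indicator measurableSet_Ioo
  have hint : IntegrableOn (fun t => ∑ y ∈ Z, (Ioo (y - a - h) (y - a)).indicator (1 : ℝ → ℝ) t)
      (Icc T1 T2) := integrable_finsetSum _ fun y _ => hio y
  have h1 := low_bound (fun t => ∑ y ∈ Z, (Ioo (y - a - h) (y - a)).indicator (1 : ℝ → ℝ) t)
    Bad T1 T2 n β hT hn hβ hint hB (fun t ht hb => by rw [← hcard]; exact hbd t ht hb)
    (fun t => Finset.sum_nonneg fun y _ => indicator_nonneg (fun _ _ => zero_le_one) t)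
  refine h1.trans ?_
  rw [integral_finsetSum _ fun y _ => hio y]
  have h2 : ∀ y ∈ Z, ∫ t in Icc T1 T2, (Ioo (y - a - h) (y - a)).indicator (1 : ℝ → ℝ) t ≤ h := by
    intro y _
    rw [integral_indicator_one measurableSet_Ioo]
    refine ENNReal.toReal_le_of_le_ofReal hh.le ?_
    refine (Measure.restrict_apply_le _ _).trans ?_
    rw [Real.volume_Ioo]
    apply ENNReal.ofReal_le_ofReal
    linarith
  refine (Finset.sum_le_sum h2).trans ?_
  rw [Finset.sum_const, nsmul_eq_mul, mul_comm]

theorem phi_cont (R : ℝ) (hR : 2 < R) : Continuous (phi R) := by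
  unfold phi
  refine continuous_const.max (Continuous.log ?_ ?_)
  · refine continuous_const.div (by fun_prop) fun v => ?_
    have := abs_nonneg v
    linarith
  · intro v
    have := abs_nonneg v
    have h0 : (0 : ℝ) < R := by linarith
    positivity

theorem phi_nonneg (R v : ℝ) : 0 ≤ phi R v := le_max_left _ _

theorem phi_eq (R v : ℝ) (hR : 2 < R) (h0 : 0 ≤ v) (h1 : v ≤ R - 2) :
    phi R v = Real.log R - Real.log (v + 2) := by
  unfold phi
  rw [abs_of_nonneg h0, Real.log_div (by linarith) (by linarith)]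
  refine max_eq_right ?_
  have := Real.log_le_log (by linarith : 0 < v + 2) (by linarith : v + 2 ≤ R)
  linarith

theorem phi_half (R : ℝ) (hR : 2 < R) :
    ∫ v in (0 : ℝ)..(R - 2), phi R v = R - 2 - 2 * Real.log (R / 2) := by
  have h1 : ∫ v in (0 : ℝ)..(R - 2), phi R v
      = ∫ v in (0 : ℝ)..(R - 2), (Real.log R - Real.log (v + 2)) := by
    refine intervalIntegral.integral_congr fun v hv => ?_
    rw [uIcc_of_le (by linarith)] at hv
    exact phi_eq R v hR hv.1 hv.2
  have hc : IntervalIntegrable (fun v : ℝ => Real.log (v + 2)) volume 0 (R - 2) := by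
    refine ContinuousOn.intervalIntegrable ?_
    refine ContinuousOn.log (by fun_prop) fun v hv => ?_
    rw [uIcc_of_le (by linarith)] at hv
    have := hv.1
    linarith
  rw [h1, intervalIntegral.integral_sub intervalIntegrable_const hc,
    intervalIntegral.integral_const, intervalIntegral.integral_comp_add_right (fun x => Real.log x),
    integral_log, Real.log_div (by linarith) (by norm_num), smul_eq_mul]
  ring_nf

theorem phi_full (R : ℝ) (hR : 2 < R) :
    ∫ v in (-(R - 2))..(R - 2), phi R v = 2 * (R - 2 - 2 * Real.log (R / 2)) := by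
  have hi : ∀ x y : ℝ, IntervalIntegrable (phi R) volume x y := fun x y =>
    (phi_cont R hR).intervalIntegrable x y
  rw [← intervalIntegral.integral_add_adjacent_intervals (hi (-(R - 2)) 0) (hi 0 (R - 2)), phi_half R hR]
  have h1 : ∫ v in (-(R - 2))..0, phi R v = ∫ v in (0 : ℝ)..(R - 2), phi R v := by
    have h2 : ∫ v in (0 : ℝ)..(R - 2), phi R (-v) = ∫ v in (-(R - 2))..(-0), phi R v :=
      intervalIntegral.integral_comp_neg (fun v => phi R v)
    rw [neg_zero] at h2
    rw [← h2]
    refine intervalIntegral.integral_congr fun v _ => ?_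
    unfold phi
    simp only [abs_neg]
  rw [h1, phi_half R hR]
  ring

theorem phi_window (R T1 T2 g : ℝ) (hR : 2 < R) (h1 : T1 + R ≤ g) (h2 : g ≤ T2 - R) :
    2 * (R - 2 - 2 * Real.log (R / 2)) ≤ ∫ t in Icc T1 T2, phi R (g - t) := by
  have hcont : Continuous fun t => phi R (g - t) := (phi_cont R hR).comp (by fun_prop)
  have h3 : ∫ t in (g - (R - 2))..(g + (R - 2)), phi R (g - t)
      = ∫ v in (-(R - 2))..(R - 2), phi R v := by
    rw [intervalIntegral.integral_comp_sub_left (fun v => phi R v) g]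
    congr 1 <;> ring
  rw [← phi_full R hR, ← h3, intervalIntegral.integral_of_le (by linarith),
    ← integral_Icc_eq_integral_Ioc]
  refine setIntegral_mono_set ?_ (Eventually.of_forall fun t => phi_nonneg _ _) ?_
  · exact hcont.continuousOn.integrableOn_Icc
  · exact (Icc_subset_Icc (by linarith) (by linarith)).eventuallyLE

theorem intup : S_INTUP := by
  intro ι Z m γ Bad T1 T2 R U V β hT hR hU hV hβ hZ hB h1 h2
  have hcont : ∀ i, Continuous fun t => m i * phi R (γ i - t) := fun i =>
    continuous_const.mul ((phi_cont R hR).comp (by fun_prop))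
  have hio : ∀ i, IntegrableOn (fun t => m i * phi R (γ i - t)) (Icc T1 T2) := fun i =>
    (hcont i).continuousOn.integrableOn_Icc
  have hint : IntegrableOn (fun t => ∑ i ∈ Z, m i * phi R (γ i - t)) (Icc T1 T2) :=
    integrable_finsetSum _ fun i _ => hio i
  have h3 := up_bound _ Bad T1 T2 U V β hT hU hV hβ hint hB h1 h2
  refine le_trans ?_ h3
  rw [integral_finsetSum _ fun i _ => hio i, Finset.mul_sum]
  refine Finset.sum_le_sum fun i hi => ?_
  obtain ⟨hm, ha, hb⟩ := hZ i hi
  rw [integral_const_mul, mul_comm]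
  exact mul_le_mul_of_nonneg_left (phi_window R T1 T2 (γ i) hR ha hb) hm

theorem intcnt : S_INTCNT := by
  intro ι Z m γ Bad T1 T2 h U V β hT hh hU hV hβ hZ hB h1 h2
  classical
  have hsum : ∀ t : ℝ, ∑ i ∈ Z with |γ i - t| ≤ h, m i
      = ∑ i ∈ Z, m i * (Icc (γ i - h) (γ i + h)).indicator (1 : ℝ → ℝ) t := by
    intro t
    rw [Finset.sum_filter]
    refine Finset.sum_congr rfl fun i _ => ?_
    by_cases hi : |γ i - t| ≤ h
    · have h3 := abs_le.mp hi
      rw [if_pos hi, indicator_of_mem (by constructor <;> linarith [h3.1, h3.2])]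
      simp
    · rw [if_neg hi, indicator_of_notMem]
      · simp
      · intro hm
        apply hi
        rw [abs_le]
        constructor <;> linarith [hm.1, hm.2]
  have h1' : IntegrableOn (1 : ℝ → ℝ) (Icc T1 T2) := by
    have : IntegrableOn (fun _ : ℝ => (1 : ℝ)) (Icc T1 T2) := integrableOn_const (by simp)
    exact this
  have hio : ∀ i, IntegrableOn (fun t => m i * (Icc (γ i - h) (γ i + h)).indicator (1 : ℝ → ℝ) t)
      (Icc T1 T2) := fun i => (h1'.indicator measurableSet_Icc).const_mul _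
  have hint : IntegrableOn (fun t => ∑ i ∈ Z, m i *
      (Icc (γ i - h) (γ i + h)).indicator (1 : ℝ → ℝ) t) (Icc T1 T2) :=
    integrable_finsetSum _ fun i _ => hio i
  have h3 := up_bound _ Bad T1 T2 U V β hT hU hV hβ hint hB
    (fun t ht hb => by rw [← hsum]; exact h1 t ht hb) (fun t ht => by rw [← hsum]; exact h2 t ht)
  refine le_trans ?_ h3
  rw [integral_finsetSum _ fun i _ => hio i, Finset.mul_sum]
  refine Finset.sum_le_sum fun i hi => ?_
  obtain ⟨hm, ha, hb⟩ := hZ i hi
  rw [integral_const_mul, mul_comm]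
  refine mul_le_mul_of_nonneg_left ?_ hm
  rw [integral_indicator_one measurableSet_Icc, measureReal_restrict_apply measurableSet_Icc,
    inter_eq_left.mpr (Icc_subset_Icc (by linarith) (by linarith)),
    Real.volume_real_Icc_of_le (by linarith)]
  linarith

end Pool.Agent.H894.HP
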